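import Pool.Agent.helper19.HF.SpecC

/-!
# Row `hz:GEZ` (MP_bf63dc_nt, project HF, theorem DH): a generic location with low windows of a coarser step
-/

set_option autoImplicit false

namespace Pool.Agent.HF

open Finset Pool.Agent.AT Pool.Agent.IT

theorem GEZ_V (V : ℤ → Prop) (s : ℕ) (h : ∀ Y, V Y → V (Y + s)) (Y : ℤ) (hY : V Y) (x : ℕ) : V (Y + s * (x : ℤ)) := by
  induction x with
  | zero => simpa using hY
  | succ x ih =>
    have h1 := h _ ih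
    rw [show Y + s * ((x + 1 : ℕ) : ℤ) = Y + s * (x : ℤ) + s by push_cast; ring]
    exact h1

open Classical in
theorem GEZ_cz (g : ℤ → Prop) (Y : ℤ) (s l : ℕ) : (cz g Y s l : ℝ) = ∑ x ∈ range l, if g (Y + s * (x : ℕ)) then (1 : ℝ) else 0 := by
  unfold cz
  rw [Finset.card_filter]
  push_cast
  rfl

/-- every element is in at most `m` windows of length `m` -/
theorem GEZ_sum (g : ℤ → Prop) (Y : ℤ) (s r n c m l : ℕ) (h : n + c + r * m ≤ l) :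
    ∑ x ∈ range n, (cz g (Y + s * ((x + c : ℕ) : ℤ)) (s * r) m : ℝ) ≤ m * cz g Y s l := by
  classical
  simp only [GEZ_cz]
  rw [Finset.sum_comm]
  have h1 : ∀ y ∈ range m, ∑ x ∈ range n, (if g (Y + s * ((x + c : ℕ) : ℤ) + (s * r : ℕ) * (y : ℕ)) then (1 : ℝ) else 0) ≤
      ∑ x ∈ range l, if g (Y + s * (x : ℕ)) then (1 : ℝ) else 0 := by
    intro y hy
    rw [Finset.mem_range] at hy
    have h2 : ∑ x ∈ range n, (if g (Y + s * ((x + c : ℕ) : ℤ) + (s * r : ℕ) * (y : ℕ)) then (1 : ℝ) else 0) =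
        ∑ x ∈ (range n).map (addRightEmbedding (c + r * y)), if g (Y + s * (x : ℕ)) then (1 : ℝ) else 0 := by
      rw [Finset.sum_map]
      refine Finset.sum_congr rfl fun x _ => ?_
      rw [addRightEmbedding_apply]
      have e : Y + s * ((x + c : ℕ) : ℤ) + (s * r : ℕ) * (y : ℕ) = Y + s * ((x + (c + r * y) : ℕ) : ℤ) := by
        push_cast
        ring
      rw [e]
    rw [h2]
    refine Finset.sum_le_sum_of_subset_of_nonneg ?_ fun z _ _ => ?_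
    · intro z hz
      rw [Finset.mem_map] at hz
      obtain ⟨x, hx, rfl⟩ := hz
      rw [Finset.mem_range] at hx ⊢
      rw [addRightEmbedding_apply]
      have h3 : r * y ≤ r * m := Nat.mul_le_mul_left r hy.le
      omega
    · split_ifs <;> norm_num
  calc _ ≤ ∑ y ∈ range m, ∑ x ∈ range l, (if g (Y + s * (x : ℕ)) then (1 : ℝ) else 0) := Finset.sum_le_sum h1
    _ = _ := by rw [Finset.sum_const, Finset.card_range, nsmul_eq_mul]

open Classical in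
/-- few windows are high -/
theorem GEZ_bad (g V : ℤ → Prop) (s r l₀ : ℕ) (γ ε K : ℝ) (hV : ∀ Y, V Y → V (Y + s)) (hε : 0 < ε) (Y₀ : ℤ) (hY₀ : V Y₀) (l : ℕ)
    (hl : (cz g Y₀ s l : ℝ) ≤ (γ + ε) * l) (hlow : ∀ l : ℕ, l₀ ≤ l → ∀ Y, V Y → (γ - ε) * l ≤ cz g Y (s * r) l)
    (m n c : ℕ) (hm : 1 ≤ m) (hm0 : l₀ ≤ m) (h : n + c + r * m ≤ l) :
    (#{x ∈ range n | (γ + K) * m < cz g (Y₀ + s * ((x + c : ℕ) : ℤ)) (s * r) m} : ℝ) * K ≤ (γ + ε) * l - (γ - ε) * n := by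
  have hm' : (0 : ℝ) < m := by exact_mod_cast hm
  have h1 := GEZ_sum g Y₀ s r n c m l h
  have h2 : ∀ x : ℕ, (γ - ε) * m ≤ cz g (Y₀ + s * ((x + c : ℕ) : ℤ)) (s * r) m := fun x => hlow m hm0 _ (GEZ_V V s hV Y₀ hY₀ _)
  have h3 : ∑ x ∈ {x ∈ range n | (γ + K) * m < cz g (Y₀ + s * ((x + c : ℕ) : ℤ)) (s * r) m}, K * m ≤
      ∑ x ∈ {x ∈ range n | (γ + K) * m < cz g (Y₀ + s * ((x + c : ℕ) : ℤ)) (s * r) m},
        ((cz g (Y₀ + s * ((x + c : ℕ) : ℤ)) (s * r) m : ℝ) - (γ - ε) * m) := by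
    refine Finset.sum_le_sum fun x hx => ?_
    have h4 := (Finset.mem_filter.1 hx).2
    nlinarith
  have h5 : ∑ x ∈ {x ∈ range n | (γ + K) * m < cz g (Y₀ + s * ((x + c : ℕ) : ℤ)) (s * r) m},
        ((cz g (Y₀ + s * ((x + c : ℕ) : ℤ)) (s * r) m : ℝ) - (γ - ε) * m) ≤
      ∑ x ∈ range n, ((cz g (Y₀ + s * ((x + c : ℕ) : ℤ)) (s * r) m : ℝ) - (γ - ε) * m) :=
    Finset.sum_le_sum_of_subset_of_nonneg (Finset.filter_subset _ _) fun x _ _ => sub_nonneg.2 (h2 x)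
  rw [Finset.sum_const, nsmul_eq_mul] at h3
  have h8 : ∑ x ∈ range n, ((cz g (Y₀ + s * ((x + c : ℕ) : ℤ)) (s * r) m : ℝ) - (γ - ε) * m) =
      ∑ x ∈ range n, (cz g (Y₀ + s * ((x + c : ℕ) : ℤ)) (s * r) m : ℝ) - n * ((γ - ε) * m) := by
    rw [Finset.sum_sub_distrib, Finset.sum_const, Finset.card_range, nsmul_eq_mul]
  rw [h8] at h5
  have h6 : (m : ℝ) * cz g Y₀ s l ≤ m * ((γ + ε) * l) := mul_le_mul_of_nonneg_left hl hm'.le
  have h7 : (m : ℝ) * ((#{x ∈ range n | (γ + K) * m < cz g (Y₀ + s * ((x + c : ℕ) : ℤ)) (s * r) m} : ℝ) * K) ≤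
      m * ((γ + ε) * l - (γ - ε) * n) := by
    linarith
  exact le_of_mul_le_mul_left h7 hm'

open Classical in
/-- few places are near zero -/
theorem GEZ_near (s : ℕ) (hs : 1 ≤ s) (Y : ℤ) (B n : ℕ) : #{x ∈ range n | |Y + s * (x : ℕ)| < (B : ℤ)} ≤ 2 * B + 1 := by
  have h1 : #{x ∈ range n | |Y + s * (x : ℕ)| < (B : ℤ)} ≤ #(Finset.Icc (-(B : ℤ)) B) := by
    refine Finset.card_le_card_of_injOn (fun x : ℕ => Y + s * (x : ℤ)) ?_ ?_
    · intro x hx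
      have h2 := (Finset.mem_filter.1 (Finset.mem_coe.1 hx)).2
      rw [abs_lt] at h2
      exact Finset.mem_coe.2 (Finset.mem_Icc.2 ⟨h2.1.le, h2.2.le⟩)
    · intro x _ y _ hxy
      have hs' : (s : ℤ) ≠ 0 := by exact_mod_cast (by omega : s ≠ 0)
      have h3 : (s : ℤ) * (x : ℤ) = s * (y : ℤ) := add_left_cancel hxy
      exact_mod_cast mul_left_cancel₀ hs' h3
  refine h1.trans ?_
  rw [Int.card_Icc]
  omega

theorem GEZ : GEZ_stmt := by
  classical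
  intro g V s s' N l₀ γ ε hs hs' hss hV hε hγ0 hγ1 hup hlow R hR hR0 O hO B
  obtain ⟨r, rfl⟩ := hss
  -- the offsets are bounded
  obtain ⟨H, hH⟩ : ∃ H : ℕ, ∀ o ∈ O, -(H : ℤ) ≤ o ∧ o ≤ H := by
    refine ⟨∑ o ∈ O, o.natAbs, fun o ho => ?_⟩
    have h1 : o.natAbs ≤ ∑ o ∈ O, o.natAbs := Finset.single_le_sum (f := fun o : ℤ => o.natAbs) (fun _ _ => Nat.zero_le _) ho
    omega
  set C : ℕ := 2 * H + r * R with hC
  obtain ⟨n, hn⟩ := exists_nat_gt ((1 + ε) * C / (2 * ε) + (2 * B + 1) * (N + 1))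
  have hn1 : (1 + ε) * C / (2 * ε) < n := lt_of_le_of_lt (le_add_of_nonneg_right (by positivity)) hn
  have hn2 : ((2 * B + 1) * (N + 1) : ℝ) < n := lt_of_le_of_lt (le_add_of_nonneg_left (by positivity)) hn
  rw [div_lt_iff₀ (by positivity)] at hn1
  obtain ⟨Y₀, hY₀, hl⟩ := hup (n + C)
  have hR1 : (1 : ℝ) ≤ R := by exact_mod_cast hR
  -- the bad sets
  set c : ℤ → ℕ := fun o => ((H : ℤ) + o).toNat with hc
  have hc1 : ∀ o ∈ O, (c o : ℤ) = (H : ℤ) + o := by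
    intro o ho
    have := hH o ho
    rw [hc]
    change ((((H : ℤ) + o).toNat : ℕ) : ℤ) = _
    rw [Int.toNat_of_nonneg (by omega)]
  set K : ℝ := 4 * (N + 1) * ε with hK
  have hK0 : 0 < K := by positivity
  set Bd : ℤ → Finset ℕ := fun o => {x ∈ range n | (γ + K) * (R : ℝ) < cz g (Y₀ + s * ((x + c o : ℕ) : ℤ)) (s * r) R} with hBd
  set Bn : Finset ℕ := {x ∈ range n | |Y₀ + s * (H : ℤ) + s * (x : ℕ)| < (B : ℤ)} with hBn
  have hb : ∀ o ∈ O, (#(Bd o) : ℝ) * K ≤ 2 * ε * n + (1 + ε) * C := by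
    intro o ho
    have h0 := hH o ho
    have h1 := hc1 o ho
    have h2 := GEZ_bad g V s r l₀ γ ε K hV hε Y₀ hY₀ (n + C) hl hlow R n (c o) (by omega) (by omega) (by omega)
    refine h2.trans ?_
    push_cast
    have h3 : (0 : ℝ) ≤ C := Nat.cast_nonneg _
    nlinarith
  have hu : (#(Bn ∪ O.biUnion Bd) : ℝ) < n := by
    have h0 : (#(Bn ∪ O.biUnion Bd) : ℝ) ≤ #Bn + #(O.biUnion Bd) := by exact_mod_cast Finset.card_union_le _ _
    have hbn : (#Bn : ℝ) ≤ 2 * B + 1 := by exact_mod_cast GEZ_near s hs _ B n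
    have h1 : (#(O.biUnion Bd) : ℝ) ≤ ∑ o ∈ O, (#(Bd o) : ℝ) := by exact_mod_cast Finset.card_biUnion_le
    have h2 : (∑ o ∈ O, (#(Bd o) : ℝ)) * K ≤ N * (2 * ε * n + (1 + ε) * C) := by
      rw [Finset.sum_mul]
      refine (Finset.sum_le_card_nsmul _ _ _ hb).trans ?_
      rw [nsmul_eq_mul]
      refine mul_le_mul_of_nonneg_right (by exact_mod_cast hO) ?_
      positivity
    have h3 : (N : ℝ) * (2 * ε * n + (1 + ε) * C) + (2 * B + 1) * K < n * K := by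
      rw [hK]
      have h4 : (0 : ℝ) ≤ N := Nat.cast_nonneg _
      have h5 : (0 : ℝ) ≤ n := Nat.cast_nonneg _
      have h6 : (N : ℝ) * ((1 + ε) * C) ≤ N * (n * (2 * ε)) := mul_le_mul_of_nonneg_left hn1.le h4
      have h7 : ((2 * B + 1) * (N + 1) : ℝ) * (4 * ε) < n * (4 * ε) := mul_lt_mul_of_pos_right hn2 (by positivity)
      nlinarith
    have h4 : (#(Bn ∪ O.biUnion Bd) : ℝ) * K < n * K := by
      have h5 : (#(Bn ∪ O.biUnion Bd) : ℝ) * K ≤ ((2 * B + 1) + ∑ o ∈ O, (#(Bd o) : ℝ)) * K :=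
        mul_le_mul_of_nonneg_right (h0.trans (add_le_add hbn h1)) hK0.le
      refine h5.trans_lt ?_
      rw [add_mul]
      linarith
    exact lt_of_mul_lt_mul_right h4 hK0.le
  obtain ⟨x, hx, hxB⟩ : ∃ x ∈ range n, x ∉ Bn ∪ O.biUnion Bd := by
    by_contra hne
    push Not at hne
    have h1 : #(range n) ≤ #(Bn ∪ O.biUnion Bd) := Finset.card_le_card hne
    rw [Finset.card_range] at h1
    have h2 : (n : ℝ) ≤ #(Bn ∪ O.biUnion Bd) := by exact_mod_cast h1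
    linarith
  rw [Finset.mem_union, not_or] at hxB
  obtain ⟨hx1, hx2⟩ := hxB
  have hsh : ∀ o ∈ O, Y₀ + s * ((H + x : ℕ) : ℤ) + s * o = Y₀ + s * ((x + c o : ℕ) : ℤ) := by
    intro o ho
    push_cast
    rw [hc1 o ho]
    ring
  refine ⟨Y₀ + s * ((H + x : ℕ) : ℤ), GEZ_V V s hV Y₀ hY₀ _, ?_, fun o ho => ⟨?_, ?_⟩⟩
  · by_contra hne
    push Not at hne
    refine hx1 (Finset.mem_filter.2 ⟨hx, ?_⟩)
    have e : Y₀ + s * (H : ℤ) + s * (x : ℕ) = Y₀ + s * ((H + x : ℕ) : ℤ) := by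
      push_cast
      ring
    rw [e]
    exact hne
  · rw [hsh o ho]
    exact GEZ_V V s hV Y₀ hY₀ _
  · rw [hsh o ho]
    by_contra hne
    push Not at hne
    exact hx2 (Finset.mem_biUnion.2 ⟨o, ho, Finset.mem_filter.2 ⟨hx, hne⟩⟩)

end Pool.Agent.HF
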